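import Pool.Agent.H492R3.KL4
import Pool.Agent.H492R3.KL5

/-!
# Partitions of an infinite group of cardinality `κ` into `κ` subsets that are `κ`-large

We prove that every infinite group `G` has a partition into `κ = #G` nonempty pieces, each of which is
both left and right `κ`-large.

* `κ = ℵ₀`: Hall's marriage theorem splits every (two-sided) large set into two large sets.
* `κ = λ⁺`: greedy choice of distinct representatives in the cosets of a chain of subgroups of size
  `λ`.
* `κ` an uncountable limit cardinal: choice of representatives along the tree of double cosets of a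
  continuous chain of subgroups `K_ν` (`ν < κ` an infinite cardinal), `#K_ν = ν`.
-/

open Cardinal Pointwise

namespace Pool.Agent.Results.MP_68822d_al.KappaLargePartition

universe u

variable {G : Type u} [Group G]

/-- `A` is left `κ`-large: `G = F A` for some set `F` of cardinality less than `κ`. -/
def LeftLarge (κ : Cardinal.{u}) (A : Set G) : Prop := ∃ F : Set G, #F < κ ∧ F * A = Set.univ

/-- `A` is right `κ`-large: `G = A F` for some set `F` of cardinality less than `κ`. -/
def RightLarge (κ : Cardinal.{u}) (A : Set G) : Prop := ∃ F : Set G, #F < κ ∧ A * F = Set.univ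

/-- `A` is `κ`-large: it is both left and right `κ`-large. -/
def IsLarge (κ : Cardinal.{u}) (A : Set G) : Prop := LeftLarge κ A ∧ RightLarge κ A

/-- Every infinite group `G` admits a partition into `#G` (nonempty, pairwise disjoint) subsets, each
of which is `#G`-large. -/
theorem result (G : Type u) [Group G] [Infinite G] :
    ∃ P : Set (Set G), Setoid.IsPartition P ∧ #P = #G ∧ ∀ A ∈ P, IsLarge #G A := by
  have h0 : ℵ₀ ≤ #G := Cardinal.infinite_iff.mp inferInstance
  rcases h0.lt_or_eq with h | h
  · by_cases hs : ∃ lam, #G = Order.succ lam
    · obtain ⟨lam, hlam⟩ := hs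
      have hl : ℵ₀ ≤ lam := by
        by_contra hcon
        rw [not_le] at hcon
        have h1 := Order.succ_le_of_lt hcon
        rw [← hlam] at h1
        exact absurd h (not_lt.mpr h1)
      exact Pool.Agent.H492R3.KL.succ_case hl hlam
    · refine Pool.Agent.H492R3.KL.limit_case h ?_
      intro μ hμ
      rcases (Order.succ_le_of_lt hμ).lt_or_eq with h1 | h1
      · exact h1
      · exact absurd ⟨μ, h1.symm⟩ hs
  · exact Pool.Agent.H492R3.KL.countable_case h.symm

end Pool.Agent.Results.MP_68822d_al.KappaLargePartition
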